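import Pool.Agent.H17.U2c

set_option autoImplicit false

namespace Pool.Agent.Results.MP_96deef_nt.Exists

/-- `c m n = S_{2,m}(n)`: the coefficient of `x ^ n` in
`(1 - x) ^ (-m) ∏ (1 - x ^ (2 ^ i)) ^ (-m)`.
The factor `1 / (1 - x ^ (2 ^ i))` is the series with coefficient `1` at the multiples of `2 ^ i`;
the factors with `i > n` do not affect the coefficient. -/
noncomputable def c (m n : ℕ) : ℤ :=
  PowerSeries.coeff n ((PowerSeries.mk (fun _ : ℕ => (1 : ℤ))) ^ m * (∏ i ∈ Finset.range (n + 1),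
    PowerSeries.mk (fun j : ℕ => if 2 ^ i ∣ j then (1 : ℤ) else 0)) ^ m)

/-- `u m n = ν₂(w - 1)` (with value `⊤` at zero), where `w` is the odd part of `c m n` -/
noncomputable def u (m n : ℕ) : ℕ∞ :=
  emultiplicity (2 : ℤ) (c m n / 2 ^ padicValInt 2 (c m n) - 1)

theorem result : (∀ n : ℕ, 1 ≤ n → c 3 n ≠ 0 ∧ (u 3 n = 1 ∨ u 3 n = 2)) ∧
    ∃ m : ℕ, 1 ≤ m ∧ {e : ℕ∞ | ∃ n : ℕ, 1 ≤ n ∧ u m n = e}.Finite := by
  have hv : ∀ {z : ℤ} {a : ℕ}, Pool.Agent.H17.S4.Val z a → emultiplicity (2 : ℤ) z = a := by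
    intro z a h
    exact emultiplicity_eq_coe.2 ⟨(h.dvd_iff a).2 le_rfl, fun h' => by
      have := (h.dvd_iff (a + 1)).1 h'; omega⟩
  have key : ∀ (z q : ℤ) (a e : ℕ), z = 2 ^ a * (2 ^ (e + 1) * (2 * q + 1) + 1) →
      emultiplicity (2 : ℤ) (z / 2 ^ padicValInt 2 z - 1) = (e + 1 : ℕ) := by
    intro z q a e h
    have h1 : Pool.Agent.H17.S4.Val z a := ⟨2 ^ e * (2 * q + 1), by rw [h]; ring⟩
    rw [h1.padic, h, Int.mul_ediv_cancel_left _ (by positivity), add_sub_cancel_right]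
    exact hv ⟨q, rfl⟩
  have main : ∀ n : ℕ, 1 ≤ n → c 3 n ≠ 0 ∧ (u 3 n = 1 ∨ u 3 n = 2) := by
    intro n hn
    have h : Pool.Agent.H17.U2.good (c 3 n) := Pool.Agent.H17.U2.c3_good n (by omega)
    unfold u
    generalize c 3 n = z at *
    rcases h with h | h | h | h
    · exact ⟨by omega, Or.inl (key z (2 * (z / 16)) 1 0 (by omega))⟩
    · exact ⟨by omega, Or.inr (key z (z / 16) 1 1 (by omega))⟩
    · exact ⟨by omega, Or.inl (key z (2 * (z / 64)) 3 0 (by omega))⟩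
    · exact ⟨by omega, Or.inr (key z (z / 64) 3 1 (by omega))⟩
  refine ⟨main, 3, by norm_num, (Set.toFinite {(1 : ℕ∞), 2}).subset ?_⟩
  rintro e ⟨n, hn, rfl⟩
  exact (main n hn).2

end Pool.Agent.Results.MP_96deef_nt.Exists
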